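import Mathlib

/-! Protoplexes, completability and direct sums. -/

namespace Pool.Agent.Helper92.Proto

open Finset

/-- A `k`-protoplex of order `n`: an `n × n` array, `none` being an empty cell, in which no symbol
occurs twice in a row or in a column, every symbol occurs in exactly `k` cells, and every row and
every column has exactly `k` non-empty cells. -/
structure IsProtoplex (n k : ℕ) (P : Fin n → Fin n → Option (Fin n)) : Prop where
  row_inj : ∀ r c c' s, P r c = some s → P r c' = some s → c = c'
  col_inj : ∀ r r' c s, P r c = some s → P r' c = some s → r = r'
  symbol : ∀ s, (univ.filter fun x : Fin n × Fin n => P x.1 x.2 = some s).card = k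
  row : ∀ r, (univ.filter fun c => P r c ≠ none).card = k
  col : ∀ c, (univ.filter fun r => P r c ≠ none).card = k

/-- A latin square of order `n`. -/
def IsLatin {n : ℕ} (L : Fin n → Fin n → Fin n) : Prop :=
  (∀ r, Function.Bijective (L r)) ∧ ∀ c, Function.Bijective fun r => L r c

/-- The partial array `P` extends to a latin square of the same order. -/
def Completable {n : ℕ} (P : Fin n → Fin n → Option (Fin n)) : Prop :=
  ∃ L : Fin n → Fin n → Fin n, IsLatin L ∧ ∀ r c s, P r c = some s → L r c = s

/-- `P` is a direct sum of `m` arrays of the same order `N`: the rows, the columns and the symbols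
can be divided into `m` classes of size `N` each so that the row, the column and the symbol of
every filled cell belong to classes with the same index. -/
def IsDirectSum (m N : ℕ) {n : ℕ} (P : Fin n → Fin n → Option (Fin n)) : Prop :=
  ∃ ρ γ σ : Fin n → Fin m,
    (∀ i, (univ.filter fun r => ρ r = i).card = N) ∧
    (∀ i, (univ.filter fun c => γ c = i).card = N) ∧
    (∀ i, (univ.filter fun s => σ s = i).card = N) ∧
    ∀ r c s, P r c = some s → ρ r = γ c ∧ γ c = σ s

end Pool.Agent.Helper92.Proto
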