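import Pool.Agent.Helper92.Proto.Ext

/-! Assembling the extensions along a pair of latin squares. -/

namespace Pool.Agent.Helper92.Proto

open Finset Function

universe u v

/-- Two latin squares of order `|I|` with prescribed entries and disjoint rectangles. -/
structure Design (I : Type u) where
  A : I → I → I
  B : I → I → I
  rho : I → I
  sig : I → I
  A_row : ∀ i, Injective (A i)
  A_col : ∀ l, Injective fun i => A i l
  B_row : ∀ i, Injective (B i)
  B_col : ∀ l, Injective fun i => B i l
  A_diag : ∀ j, A j j = j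
  A_rs : ∀ j, A (rho j) (sig j) = j
  B_s : ∀ j, B j (sig j) = j
  B_r : ∀ j, B (rho j) j = j
  rho_ne : ∀ j, rho j ≠ j
  sig_ne : ∀ j, sig j ≠ j
  disj : ∀ j j' i l, (i = j ∨ i = rho j) → (l = j ∨ l = sig j) →
    (i = j' ∨ i = rho j') → (l = j' ∨ l = sig j') → j = j'

lemma cnt_prod {I : Type u} {β : Type v} [Fintype I] [Fintype β] (p : I × β → Prop) :
    cnt p = ∑ i, cnt fun b => p (i, b) := by
  classical
  unfold cnt
  simp only [card_filter]
  rw [Fintype.sum_prod_type]

lemma sum_cnt_part {I : Type u} [Fintype I] {N k : ℕ} (f g : I → I) (hf : Bijective f)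
    (hg : Bijective g) (K : I → Fin N → Prop) (hk : k ≤ N) (hK : ∀ l, cnt (K l) = k) (j : I) :
    cnt (fun y : I × Fin N => (f y.1 = j ∧ K y.1 y.2) ∨ (g y.1 = j ∧ ¬ K y.1 y.2)) = N := by
  classical
  rw [cnt_prod]
  have h1 : ∀ l, cnt (fun b => (f l = j ∧ K l b) ∨ (g l = j ∧ ¬ K l b)) =
      (if f l = j then k else 0) + (if g l = j then N - k else 0) := by
    intro l
    by_cases h : f l = j <;> by_cases h' : g l = j
    · simp only [h, h', true_and, if_true]
      rw [cnt_true fun b => Classical.em _, Fintype.card_fin]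
      omega
    · simp only [h, h', true_and, false_and, or_false, if_true, if_false, add_zero]
      exact hK l
    · simp only [h, h', true_and, false_and, false_or, if_true, if_false, zero_add]
      exact cnt_not _ (Fintype.card_fin N) (hK l)
    · simp only [h, h', false_and, or_self, if_false, add_zero]
      exact cnt_false fun _ => id
  simp only [h1]
  rw [sum_add_distrib]
  have h2 : ∀ (F : I → I) (hF : Bijective F) (d : ℕ), ∑ l, (if F l = j then d else 0) = d := by
    intro F hF d
    obtain ⟨l, hl⟩ := hF.2 j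
    rw [sum_eq_single l]
    · simp [hl]
    · intro b _ hb
      rw [if_neg]
      intro e
      exact hb (hF.1 (e.trans hl.symm))
    · intro h; exact absurd (mem_univ _) h
  rw [h2 f hf, h2 g hg]
  omega

theorem Design.core {I : Type u} [Fintype I] (D : Design I) {N k : ℕ} (hk : k ≤ N)
    (P : I → Fin N → Fin N → Fin N → Prop) (hP : ∀ i, Plex N k (P i)) :
    ∃ L : I × Fin N → I × Fin N → I × Fin N, (∀ x, Injective (L x)) ∧
      (∀ y, Injective fun x => L x y) ∧ ∀ i r c s, P i r c s → L (i, r) (i, c) = (i, s) := by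
  classical
  choose T hT using fun i => (hP i).exists_ext hk
  have hkk : N - (N - k) = k := by omega
  have hKex : ∀ i l, ∃ Kil : Fin N → Fin N → Prop, Reg k Kil ∧ ∀ j,
      (i = j → l = j → Kil = fun r s => ∃ c, P j r c s) ∧
      (i = j → l = D.sig j → Kil = fun r s => ¬ ∃ c, T j (Sum.inl r) c = Sum.inr s) ∧
      (i = D.rho j → l = j → Kil = fun r s => ¬ ∃ c, T j (Sum.inr r) c = Sum.inl s) ∧
      (i = D.rho j → l = D.sig j → Kil = fun r s => ∃ c, T j (Sum.inr r) c = Sum.inr s) := by
    intro i l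
    by_cases h : ∃ j, (i = j ∨ i = D.rho j) ∧ (l = j ∨ l = D.sig j)
    · obtain ⟨j, hi, hl⟩ := h
      have uniq : ∀ j', (i = j' ∨ i = D.rho j') → (l = j' ∨ l = D.sig j') → j' = j :=
        fun j' h1 h2 => D.disj j' j i l h1 h2 hi hl
      rcases hi with hi | hi <;> rcases hl with hl | hl
      · refine ⟨fun r s => ∃ c, P j r c s, (hP j).rs, fun j' => ⟨?_, ?_, ?_, ?_⟩⟩
        · intro h1 h2; rw [uniq j' (Or.inl h1) (Or.inl h2)]
        · intro h1 h2
          have e := uniq j' (Or.inl h1) (Or.inr h2)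
          rw [e] at h2
          exact absurd (h2.symm.trans hl) (D.sig_ne j)
        · intro h1 h2
          have e := uniq j' (Or.inr h1) (Or.inl h2)
          rw [e] at h1
          exact absurd (h1.symm.trans hi) (D.rho_ne j)
        · intro h1 h2
          have e := uniq j' (Or.inr h1) (Or.inr h2)
          rw [e] at h1
          exact absurd (h1.symm.trans hi) (D.rho_ne j)
      · refine ⟨fun r s => ¬ ∃ c, T j (Sum.inl r) c = Sum.inr s, ?_, fun j' => ⟨?_, ?_, ?_, ?_⟩⟩
        · have := (hT j).r12.compl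
          rwa [hkk] at this
        · intro h1 h2
          have e := uniq j' (Or.inl h1) (Or.inl h2)
          rw [e] at h2
          exact absurd (hl.symm.trans h2) (D.sig_ne j)
        · intro h1 h2; rw [uniq j' (Or.inl h1) (Or.inr h2)]
        · intro h1 h2
          have e := uniq j' (Or.inr h1) (Or.inl h2)
          rw [e] at h1
          exact absurd (h1.symm.trans hi) (D.rho_ne j)
        · intro h1 h2
          have e := uniq j' (Or.inr h1) (Or.inr h2)
          rw [e] at h1
          exact absurd (h1.symm.trans hi) (D.rho_ne j)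
      · refine ⟨fun r s => ¬ ∃ c, T j (Sum.inr r) c = Sum.inl s, ?_, fun j' => ⟨?_, ?_, ?_, ?_⟩⟩
        · have := (hT j).r21.compl
          rwa [hkk] at this
        · intro h1 h2
          have e := uniq j' (Or.inl h1) (Or.inl h2)
          rw [e] at h1
          exact absurd (hi.symm.trans h1) (D.rho_ne j)
        · intro h1 h2
          have e := uniq j' (Or.inl h1) (Or.inr h2)
          rw [e] at h1
          exact absurd (hi.symm.trans h1) (D.rho_ne j)
        · intro h1 h2; rw [uniq j' (Or.inr h1) (Or.inl h2)]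
        · intro h1 h2
          have e := uniq j' (Or.inr h1) (Or.inr h2)
          rw [e] at h2
          exact absurd (h2.symm.trans hl) (D.sig_ne j)
      · refine ⟨fun r s => ∃ c, T j (Sum.inr r) c = Sum.inr s, (hT j).r22,
          fun j' => ⟨?_, ?_, ?_, ?_⟩⟩
        · intro h1 h2
          have e := uniq j' (Or.inl h1) (Or.inl h2)
          rw [e] at h1
          exact absurd (hi.symm.trans h1) (D.rho_ne j)
        · intro h1 h2
          have e := uniq j' (Or.inl h1) (Or.inr h2)
          rw [e] at h1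
          exact absurd (hi.symm.trans h1) (D.rho_ne j)
        · intro h1 h2
          have e := uniq j' (Or.inr h1) (Or.inl h2)
          rw [e] at h2
          exact absurd (hl.symm.trans h2) (D.sig_ne j)
        · intro h1 h2; rw [uniq j' (Or.inr h1) (Or.inr h2)]
    · refine ⟨fun r s => ∃ c, P i r c s, (hP i).rs, fun j' => ⟨?_, ?_, ?_, ?_⟩⟩
      · intro h1 h2; exact absurd ⟨j', Or.inl h1, Or.inl h2⟩ h
      · intro h1 h2; exact absurd ⟨j', Or.inl h1, Or.inr h2⟩ h
      · intro h1 h2; exact absurd ⟨j', Or.inr h1, Or.inl h2⟩ h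
      · intro h1 h2; exact absurd ⟨j', Or.inr h1, Or.inr h2⟩ h
  choose K hK hK' using hKex
  have bij : ∀ F : I → I, Injective F → Bijective F := fun F hF =>
    ⟨hF, Finite.surjective_of_injective hF⟩
  let G : I → I × Fin N → I × Fin N → Prop := fun j x y =>
    (D.A x.1 y.1 = j ∧ K x.1 y.1 x.2 y.2) ∨ (D.B x.1 y.1 = j ∧ ¬ K x.1 y.1 x.2 y.2)
  have hG : ∀ j, Reg N (G j) := by
    intro j
    constructor
    · rintro ⟨i, a⟩
      exact sum_cnt_part (D.A i) (D.B i) (bij _ (D.A_row i)) (bij _ (D.B_row i))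
        (fun l s => K i l a s) hk (fun l => (hK i l).1 a) j
    · rintro ⟨l, s⟩
      exact sum_cnt_part (fun i => D.A i l) (fun i => D.B i l) (bij _ (D.A_col l))
        (bij _ (D.B_col l)) (fun i a => K i l a s) hk (fun i => (hK i l).2 s) j
  choose χ h1 h2 h3 using fun j => koenig N (hG j)
  let emb : I → Fin N ⊕ Fin N → I × Fin N := fun j =>
    Sum.elim (fun s => (j, s)) (fun s => (D.sig j, s))
  have hemb : ∀ j, Injective (emb j) := by
    rintro j (s | s) (s' | s') e
    · simp only [emb, Sum.elim_inl, Prod.mk.injEq, true_and] at e; rw [e]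
    · simp only [emb, Sum.elim_inl, Sum.elim_inr, Prod.mk.injEq] at e
      exact absurd e.1.symm (D.sig_ne j)
    · simp only [emb, Sum.elim_inl, Sum.elim_inr, Prod.mk.injEq] at e
      exact absurd e.1 (D.sig_ne j)
    · simp only [emb, Sum.elim_inr, Prod.mk.injEq, true_and] at e; rw [e]
  have hemb1 : ∀ j z, (emb j z).1 = j ∨ (emb j z).1 = D.sig j := by
    rintro j (s | s)
    · exact Or.inl rfl
    · exact Or.inr rfl
  let L : I × Fin N → I × Fin N → I × Fin N := fun x y =>
    if x.1 = y.1 then emb y.1 (T y.1 (Sum.inl x.2) y.2)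
    else if x.1 = D.rho y.1 then emb y.1 (T y.1 (Sum.inr x.2) y.2)
    else χ y.1 x y.2
  have L1 : ∀ j a c, L (j, a) (j, c) = emb j (T j (Sum.inl a) c) := by
    intro j a c; simp only [L, if_true]
  have L2 : ∀ j a c, L (D.rho j, a) (j, c) = emb j (T j (Sum.inr a) c) := by
    intro j a c; simp only [L, if_neg (D.rho_ne j), if_true]
  have L3 : ∀ j c x, x.1 ≠ j → x.1 ≠ D.rho j → L x (j, c) = χ j x c := by
    intro j c x e e'; simp only [L, if_neg e, if_neg e']
  have claim : ∀ x j c, G j x (L x (j, c)) := by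
    rintro ⟨i, a⟩ j c
    by_cases e : i = j
    · subst e
      rw [L1]
      rcases h : T i (Sum.inl a) c with s | s
      · refine Or.inl ⟨D.A_diag i, ?_⟩
        simp only [emb, Sum.elim_inl]
        rw [(hK' i i i).1 rfl rfl]
        exact ⟨c, ((hT i).ext _ _ _).1 h⟩
      · refine Or.inr ⟨D.B_s i, ?_⟩
        simp only [emb, Sum.elim_inr]
        rw [(hK' i (D.sig i) i).2.1 rfl rfl]
        exact not_not.2 ⟨c, h⟩
    · by_cases e' : i = D.rho j
      · subst e'
        rw [L2]
        rcases h : T j (Sum.inr a) c with s | s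
        · refine Or.inr ⟨D.B_r j, ?_⟩
          simp only [emb, Sum.elim_inl]
          rw [(hK' (D.rho j) j j).2.2.1 rfl rfl]
          exact not_not.2 ⟨c, h⟩
        · refine Or.inl ⟨D.A_rs j, ?_⟩
          simp only [emb, Sum.elim_inr]
          rw [(hK' (D.rho j) (D.sig j) j).2.2.2 rfl rfl]
          exact ⟨c, h⟩
      · rw [L3 j c _ e e']
        exact h1 j _ c
  have sep : ∀ j x y, G j x y → (y.1 = j ∨ y.1 = D.sig j) → (x.1 = j ∨ x.1 = D.rho j) := by
    rintro j ⟨i, a⟩ ⟨l, s⟩ hg hy
    simp only at hy ⊢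
    rcases hy with rfl | rfl
    · rcases hg with ⟨h, -⟩ | ⟨h, -⟩
      · exact Or.inl (D.A_col _ (h.trans (D.A_diag _).symm))
      · exact Or.inr (D.B_col _ (h.trans (D.B_r _).symm))
    · rcases hg with ⟨h, -⟩ | ⟨h, -⟩
      · exact Or.inr (D.A_col _ (h.trans (D.A_rs _).symm))
      · exact Or.inl (D.B_col _ (h.trans (D.B_s _).symm))
  have inside : ∀ j x, (x.1 = j ∨ x.1 = D.rho j) → ∃ z : Fin N ⊕ Fin N,
      x = Sum.elim (fun a => (j, a)) (fun a => (D.rho j, a)) z ∧
      ∀ c, L x (j, c) = emb j (T j z c) := by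
    rintro j ⟨i, a⟩ (h | h)
    · simp only at h; subst h
      exact ⟨Sum.inl a, rfl, fun c => L1 _ _ _⟩
    · simp only at h; subst h
      exact ⟨Sum.inr a, rfl, fun c => L2 _ _ _⟩
  refine ⟨L, ?_, ?_, ?_⟩
  · rintro x ⟨j, c⟩ ⟨j', c'⟩ e
    have g1 := claim x j c
    have g2 := claim x j' c'
    rw [← e] at g2
    have hj : j = j' := by
      rcases g1 with ⟨p, q⟩ | ⟨p, q⟩ <;> rcases g2 with ⟨p', q'⟩ | ⟨p', q'⟩
      · exact p.symm.trans p'
      · exact absurd q q'
      · exact absurd q' q
      · exact p.symm.trans p'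
    subst hj
    by_cases hx : x.1 = j ∨ x.1 = D.rho j
    · obtain ⟨z, -, hz⟩ := inside j x hx
      rw [hz, hz] at e
      rw [(hT j).row z (hemb j e)]
    · rw [not_or] at hx
      rw [L3 j c x hx.1 hx.2, L3 j c' x hx.1 hx.2] at e
      rw [h2 j x e]
  · rintro ⟨j, c⟩ x x' e
    simp only at e
    by_cases hx : x.1 = j ∨ x.1 = D.rho j <;> by_cases hx' : x'.1 = j ∨ x'.1 = D.rho j
    · obtain ⟨z, hz1, hz⟩ := inside j x hx
      obtain ⟨z', hz1', hz'⟩ := inside j x' hx'
      rw [hz, hz'] at e
      have := (hT j).col c (hemb j e)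
      rw [hz1, hz1', this]
    · obtain ⟨z, -, hz⟩ := inside j x hx
      exfalso
      apply hx'
      apply sep j x' _ (claim x' j c)
      rw [← e, hz]
      exact hemb1 j _
    · obtain ⟨z, -, hz⟩ := inside j x' hx'
      exfalso
      apply hx
      apply sep j x _ (claim x j c)
      rw [e, hz]
      exact hemb1 j _
    · rw [not_or] at hx hx'
      rw [L3 j c x hx.1 hx.2, L3 j c x' hx'.1 hx'.2] at e
      exact (h3 j c).1 e
  · intro i r c s h
    rw [L1, ((hT i).ext _ _ _).2 h]
    rfl

end Pool.Agent.Helper92.Proto
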