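import Pool.Agent.Helper92.Proto.Core

/-! Designs over finite fields, and one of order six. -/

namespace Pool.Agent.Helper92.Proto

open Finset Function

universe u

/-- The design over a field. -/
def Design.ofField {F : Type u} [Field F] (mu : F) (h0 : mu ≠ 0) (h1 : mu ≠ 1)
    (h2 : 2 * mu - 1 ≠ 0) : Design F where
  A := fun i l => (mu * i + (mu - 1) * l) / (2 * mu - 1)
  B := fun i l => mu * i + (1 - mu) * l - (1 - mu) * mu
  rho := fun j => j + (1 - mu)
  sig := fun j => j + mu
  A_row := by
    intro i l l' e
    have e' : (mu * i + (mu - 1) * l) = (mu * i + (mu - 1) * l') := by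
      simpa only [div_left_inj' h2] using e
    exact mul_left_cancel₀ (sub_ne_zero.2 h1) (add_left_cancel e')
  A_col := by
    intro l i i' e
    have e' : (mu * i + (mu - 1) * l) = (mu * i' + (mu - 1) * l) := by
      simpa only [div_left_inj' h2] using e
    exact mul_left_cancel₀ h0 (add_right_cancel e')
  B_row := by
    intro i l l' e
    have e' : (1 - mu) * l = (1 - mu) * l' := by
      simp only at e
      linear_combination e
    exact mul_left_cancel₀ (sub_ne_zero.2 (Ne.symm h1)) e'
  B_col := by
    intro l i i' e
    have e' : mu * i = mu * i' := by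
      simp only at e
      linear_combination e
    exact mul_left_cancel₀ h0 e'
  A_diag := by
    intro j
    rw [div_eq_iff h2]
    ring
  A_rs := by
    intro j
    rw [div_eq_iff h2]
    ring
  B_s := by intro j; ring
  B_r := by intro j; ring
  rho_ne := by
    intro j e
    apply h1
    linear_combination -e
  sig_ne := by
    intro j e
    apply h0
    linear_combination e
  disj := by
    intro j j' i l a b a' b'
    rcases a with a | a <;> rcases b with b | b <;> rcases a' with a' | a' <;>
      rcases b' with b' | b'
    · rw [← a, a']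
    · first
      | exact absurd (by linear_combination a - b - a' + b') h0
      | exact absurd (by linear_combination -(a - b - a' + b')) h0
    · first
      | exact absurd (by linear_combination a - b - a' + b') (sub_ne_zero.2 h1)
      | exact absurd (by linear_combination -(a - b - a' + b')) (sub_ne_zero.2 h1)
    · first
      | exact absurd (by linear_combination a - b - a' + b') h2
      | exact absurd (by linear_combination -(a - b - a' + b')) h2
    · exact absurd (by linear_combination a - b - a' + b') h0
    · rw [← a, a']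
    · exact absurd (by linear_combination a - b - a' + b') (one_ne_zero (α := F))
    · first
      | exact absurd (by linear_combination a - b - a' + b') h1
      | exact absurd (by linear_combination -(a - b - a' + b')) h1
    · exact absurd (by linear_combination a - b - a' + b') (sub_ne_zero.2 h1)
    · first
      | exact absurd (by linear_combination a - b - a' + b') (one_ne_zero (α := F))
      | exact absurd (by linear_combination -(a - b - a' + b')) (one_ne_zero (α := F))
    · exact add_right_cancel (a.symm.trans a')
    · first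
      | exact absurd (by linear_combination a - b - a' + b') h0
      | exact absurd (by linear_combination -(a - b - a' + b')) h0
    · exact absurd (by linear_combination a - b - a' + b') h2
    · exact absurd (by linear_combination a - b - a' + b') h1
    · exact absurd (by linear_combination a - b - a' + b') h0
    · exact add_right_cancel (a.symm.trans a')

theorem exists_design_field (F : Type) [Field F] [Fintype F] (h : 4 ≤ Fintype.card F) :
    Nonempty (Design F) := by
  classical
  have hc : ({0, 1, (2 : F)⁻¹} : Finset F).card < Fintype.card F :=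
    lt_of_le_of_lt Finset.card_le_three (by omega)
  obtain ⟨mu, hmu⟩ : ∃ mu, mu ∉ ({0, 1, (2 : F)⁻¹} : Finset F) := by
    by_contra hcon
    push Not at hcon
    have : ({0, 1, (2 : F)⁻¹} : Finset F) = univ := Finset.eq_univ_iff_forall.2 hcon
    rw [this, card_univ] at hc
    exact lt_irrefl _ hc
  simp only [mem_insert, mem_singleton, not_or] at hmu
  refine ⟨Design.ofField mu hmu.1 hmu.2.1 fun e => hmu.2.2 ?_⟩
  have e2 : mu * 2 = 1 := by linear_combination e
  exact eq_inv_of_mul_eq_one_left e2

/-- A design of order six. -/
def design6 : Design (Fin 6) where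
  A := ![![0, 5, 4, 1, 3, 2], ![5, 1, 0, 4, 2, 3], ![4, 3, 2, 0, 5, 1], ![2, 0, 5, 3, 1, 4],
    ![1, 2, 3, 5, 4, 0], ![3, 4, 1, 2, 0, 5]]
  B := ![![5, 1, 0, 4, 2, 3], ![0, 5, 4, 1, 3, 2], ![4, 2, 3, 0, 1, 5], ![3, 0, 5, 2, 4, 1],
    ![1, 3, 2, 5, 0, 4], ![2, 4, 1, 3, 5, 0]]
  rho := ![1, 0, 4, 5, 3, 2]
  sig := ![2, 3, 1, 0, 5, 4]
  A_row := by decide
  A_col := by decide
  B_row := by decide
  B_col := by decide
  A_diag := by decide
  A_rs := by decide
  B_s := by decide
  B_r := by decide
  rho_ne := by decide
  sig_ne := by decide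
  disj := by decide

theorem exists_design {m : ℕ} (hm : 4 ≤ m) :
    ∃ (I : Type) (_ : Fintype I), Nonempty (Design I) ∧ Fintype.card I ∣ m := by
  have prime_case : ∀ p, p.Prime → 5 ≤ p → p ∣ m →
      ∃ (I : Type) (_ : Fintype I), Nonempty (Design I) ∧ Fintype.card I ∣ m := by
    intro p hp h5 hd
    have := Fact.mk hp
    refine ⟨ZMod p, inferInstance, exists_design_field _ ?_, ?_⟩
    · rw [ZMod.card]; omega
    · rwa [ZMod.card]
  by_cases h4 : 4 ∣ m
  · let _ := Fintype.ofFinite (GaloisField 2 2)
    have hc : Fintype.card (GaloisField 2 2) = 4 := by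
      rw [← Nat.card_eq_fintype_card, GaloisField.card 2 2 (by norm_num)]
      norm_num
    exact ⟨GaloisField 2 2, inferInstance, exists_design_field _ hc.ge, hc ▸ h4⟩
  by_cases h9 : 9 ∣ m
  · let _ := Fintype.ofFinite (GaloisField 3 2)
    have hc : Fintype.card (GaloisField 3 2) = 9 := by
      rw [← Nat.card_eq_fintype_card, GaloisField.card 3 2 (by norm_num)]
      norm_num
    exact ⟨GaloisField 3 2, inferInstance, exists_design_field _ (by omega), hc ▸ h9⟩
  by_cases h6 : 6 ∣ m
  · exact ⟨Fin 6, inferInstance, ⟨design6⟩, by rwa [Fintype.card_fin]⟩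
  have key : ∃ t, 2 ≤ t ∧ t ∣ m ∧ ¬ 2 ∣ t ∧ ¬ 3 ∣ t := by
    by_cases h2 : 2 ∣ m
    · obtain ⟨t, rfl⟩ := h2
      exact ⟨t, by omega, Dvd.intro_left _ rfl, by omega, by omega⟩
    · by_cases h3 : 3 ∣ m
      · obtain ⟨t, rfl⟩ := h3
        exact ⟨t, by omega, Dvd.intro_left _ rfl, by omega, by omega⟩
      · exact ⟨m, by omega, dvd_rfl, h2, h3⟩
  obtain ⟨t, ht, htm, h2, h3⟩ := key
  have hp := Nat.minFac_prime (show t ≠ 1 by omega)
  have hd := Nat.minFac_dvd t
  refine prime_case t.minFac hp ?_ (hd.trans htm)
  have e2 : t.minFac ≠ 2 := fun e => h2 (e ▸ hd)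
  have e3 : t.minFac ≠ 3 := fun e => h3 (e ▸ hd)
  have e4 : t.minFac ≠ 4 := fun e => by rw [e] at hp; exact absurd hp (by norm_num)
  have := hp.two_le
  omega

end Pool.Agent.Helper92.Proto
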