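import Pool.Agent.Helper92.Proto.Koenig

/-! Extending a protoplex of order `N` to a `2N × N` array with regular row-symbol incidences. -/

namespace Pool.Agent.Helper92.Proto

universe u v

/-- The relational form of a protoplex. -/
structure Plex (N k : ℕ) (P : Fin N → Fin N → Fin N → Prop) : Prop where
  row : ∀ r c c' s, P r c s → P r c' s → c = c'
  col : ∀ r r' c s, P r c s → P r' c s → r = r'
  cell : ∀ r c s s', P r c s → P r c s' → s = s'
  rc : Reg k (fun r c => ∃ s, P r c s)
  rs : Reg k (fun r s => ∃ c, P r c s)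
  cs : Reg k (fun c s => ∃ r, P r c s)

/-- The extension of a protoplex to two row classes and two symbol classes. -/
structure Ext {N : ℕ} (k : ℕ) (P : Fin N → Fin N → Fin N → Prop)
    (T : Fin N ⊕ Fin N → Fin N → Fin N ⊕ Fin N) : Prop where
  ext : ∀ r c s, T (Sum.inl r) c = Sum.inl s ↔ P r c s
  row : ∀ x, Function.Injective (T x)
  col : ∀ c, Function.Injective fun x => T x c
  r12 : Reg (N - k) (fun r s => ∃ c, T (Sum.inl r) c = Sum.inr s)
  r21 : Reg (N - k) (fun r s => ∃ c, T (Sum.inr r) c = Sum.inl s)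
  r22 : Reg k (fun r s => ∃ c, T (Sum.inr r) c = Sum.inr s)

theorem Plex.exists_top {N k : ℕ} (hk : k ≤ N) {P : Fin N → Fin N → Fin N → Prop}
    (hP : Plex N k P) : ∃ top : Fin N → Fin N → Fin N ⊕ Fin N,
      (∀ r c s, top r c = Sum.inl s ↔ P r c s) ∧ (∀ r, Function.Injective (top r)) ∧
      (∀ c, Function.Injective fun r => top r c) ∧
      Reg (N - k) (fun r t => ∃ c, top r c = Sum.inr t) ∧
      (∀ t, cnt (fun c => ∃ r, top r c = Sum.inr t) = N - k) := by
  let G1 : Fin N ⊕ Fin k → Fin N ⊕ Fin k → Prop := fun a b =>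
    match a, b with
    | Sum.inl r, Sum.inl c => ¬ ∃ s, P r c s
    | Sum.inl _, Sum.inr _ => True
    | Sum.inr _, Sum.inl _ => True
    | Sum.inr _, Sum.inr _ => False
  have hG1 : Reg N G1 := by
    constructor
    · rintro (r | i)
      · rw [cnt_sum, cnt_not _ (Fintype.card_fin N) (hP.rc.1 r), cnt_true fun _ => trivial,
          Fintype.card_fin]
        omega
      · rw [cnt_sum, cnt_true fun _ => trivial, cnt_false fun _ => id, Fintype.card_fin]
        rfl
    · rintro (c | i)
      · rw [cnt_sum, cnt_not _ (Fintype.card_fin N) (hP.rc.2 c), cnt_true fun _ => trivial,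
          Fintype.card_fin]
        omega
      · rw [cnt_sum, cnt_true fun _ => trivial, cnt_false fun _ => id, Fintype.card_fin]
        rfl
  obtain ⟨χ, h1, h2, h3⟩ := koenig N hG1
  have key : ∀ r c, ∃ x : Fin N ⊕ Fin N, (∀ s, x = Sum.inl s ↔ P r c s) ∧
      (∀ t, x = Sum.inr t ↔ χ (Sum.inl r) t = Sum.inl c) := by
    intro r c
    by_cases h : ∃ s, P r c s
    · obtain ⟨s, hs⟩ := h
      refine ⟨Sum.inl s, fun s' => ⟨fun e => ?_, fun h' => ?_⟩, fun t => ⟨fun e => ?_, fun e => ?_⟩⟩
      · rw [← Sum.inl_injective e]; exact hs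
      · rw [hP.cell _ _ _ _ hs h']
      · cases e
      · have := h1 (Sum.inl r) t
        rw [e] at this
        exact absurd ⟨s, hs⟩ this
    · obtain ⟨t, ht⟩ := hG1.exists_colour h1 h2 (a := Sum.inl r) (b := Sum.inl c) h
      refine ⟨Sum.inr t, fun s => ⟨fun e => ?_, fun h' => ?_⟩, fun t' => ⟨fun e => ?_, fun e => ?_⟩⟩
      · cases e
      · exact absurd ⟨s, h'⟩ h
      · rw [← Sum.inr_injective e]; exact ht
      · rw [h2 _ (ht.trans e.symm)]
  choose top ht1 ht2 using key
  have c1 : ∀ t, cnt (fun r => ∃ c, χ (Sum.inl r) t = Sum.inl c) = N - k := by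
    intro t
    have e1 : cnt (fun r => ∃ j : Fin k, χ (Sum.inl r) t = Sum.inr j) = k := by
      rw [cnt_pbij (fun r (j : Fin k) => χ (Sum.inl r) t = Sum.inr j)
        (fun a b b' e e' => Sum.inr_injective (e.symm.trans e'))
        (fun a a' b e e' => Sum.inl_injective ((h3 t).1 (e.trans e'.symm)))]
      rw [cnt_true, Fintype.card_fin]
      intro j
      obtain ⟨a, ha⟩ := (h3 t).2 (Sum.inr j)
      rcases a with r | i
      · exact ⟨r, ha⟩
      · have := h1 (Sum.inr i) t
        simp only at ha
        rw [ha] at this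
        exact this.elim
    rw [← cnt_not _ (Fintype.card_fin N) e1]
    apply cnt_congr
    intro r
    rcases h : χ (Sum.inl r) t with c | j <;> simp
  refine ⟨top, ht1, ?_, ?_, ⟨?_, ?_⟩, ?_⟩
  · intro r c c' e
    rcases h : top r c with s | t
    · exact hP.row r c c' s ((ht1 _ _ _).1 h) ((ht1 _ _ _).1 (e ▸ h))
    · exact Sum.inl_injective (((ht2 _ _ _).1 h).symm.trans ((ht2 _ _ _).1 (e ▸ h)))
  · intro c r r' e
    simp only at e
    rcases h : top r c with s | t
    · exact hP.col r r' c s ((ht1 _ _ _).1 h) ((ht1 _ _ _).1 (e ▸ h))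
    · exact Sum.inl_injective ((h3 t).1 (((ht2 _ _ _).1 h).trans ((ht2 _ _ _).1 (e ▸ h)).symm))
  · intro r
    simp only [ht2]
    rw [cnt_pbij (fun t c => χ (Sum.inl r) t = Sum.inl c)
        (fun a b b' e e' => Sum.inl_injective (e.symm.trans e'))
        (fun a a' b e e' => h2 _ (e.trans e'.symm))]
    rw [← cnt_not _ (Fintype.card_fin N) (hP.rc.1 r)]
    apply cnt_congr
    intro c
    constructor
    · rintro ⟨t, ht⟩
      have := h1 (Sum.inl r) t
      rw [ht] at this
      exact this
    · intro h
      exact hG1.exists_colour h1 h2 (a := Sum.inl r) (b := Sum.inl c) h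
  · intro t
    simp only [ht2]
    exact c1 t
  · intro t
    simp only [ht2]
    rw [← c1 t]
    exact (cnt_pbij (fun r c => χ (Sum.inl r) t = Sum.inl c)
        (fun a b b' e e' => Sum.inl_injective (e.symm.trans e'))
        (fun a a' b e e' => Sum.inl_injective ((h3 t).1 (e.trans e'.symm)))).symm

theorem Plex.exists_ext {N k : ℕ} (hk : k ≤ N) {P : Fin N → Fin N → Fin N → Prop}
    (hP : Plex N k P) : ∃ T : Fin N ⊕ Fin N → Fin N → Fin N ⊕ Fin N, Ext k P T := by
  obtain ⟨top, ht, trow, tcol, treg, tc⟩ := hP.exists_top hk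
  let G2 : Fin N ⊕ (Fin k ⊕ Fin (N - k)) → Fin N ⊕ Fin N → Prop := fun a x =>
    match a, x with
    | Sum.inl c, x => ¬ ∃ r, top r c = x
    | Sum.inr (Sum.inl _), Sum.inl _ => True
    | Sum.inr (Sum.inl _), Sum.inr _ => False
    | Sum.inr (Sum.inr _), Sum.inl _ => False
    | Sum.inr (Sum.inr _), Sum.inr _ => True
  have hG2 : Reg N G2 := by
    constructor
    · rintro (c | i | i)
      · have e1 : cnt (fun x => ∃ r, top r c = x) = N := by
          rw [← cnt_pbij (fun r x => top r c = x) (fun a b b' e e' => e.symm.trans e')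
            (fun a a' b e e' => tcol c (e.trans e'.symm)), cnt_true fun r => ⟨_, rfl⟩,
            Fintype.card_fin]
        have e2 := cnt_not _ (n := N + N) (by simp) e1
        refine e2.trans ?_
        omega
      · rw [cnt_sum, cnt_true fun _ => trivial, cnt_false fun _ => id, Fintype.card_fin]
        rfl
      · rw [cnt_sum, cnt_false fun _ => id, cnt_true fun _ => trivial, Fintype.card_fin]
        omega
    · rintro (s | t)
      · have e1 : cnt (fun c => ∃ r, top r c = Sum.inl s) = k := by
          simp only [ht]; exact hP.cs.2 s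
        rw [cnt_sum, cnt_sum, cnt_not _ (Fintype.card_fin N) e1,
          cnt_true fun _ => trivial, cnt_false fun _ => id, Fintype.card_fin]
        omega
      · rw [cnt_sum, cnt_sum, cnt_not _ (Fintype.card_fin N) (tc t),
          cnt_false fun _ => id, cnt_true fun _ => trivial, Fintype.card_fin]
        omega
  obtain ⟨ψ, h1, h2, h3⟩ := koenig N hG2
  refine ⟨fun x c => Sum.elim (fun r => top r c) (fun b => ψ (Sum.inl c) b) x, ?_⟩
  have hinl : ∀ (b : Fin N) (s : Fin N), (∃ c, ψ (Sum.inl c) b = Sum.inl s) ↔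
      ¬ ∃ i : Fin k, ψ (Sum.inr (Sum.inl i)) b = Sum.inl s := by
    intro b s
    constructor
    · rintro ⟨c, hc⟩ ⟨i, hi⟩
      have := (h3 b).1 (hc.trans hi.symm)
      cases this
    · intro h
      obtain ⟨a, ha⟩ := (h3 b).2 (Sum.inl s)
      rcases a with c | i | i
      · exact ⟨c, ha⟩
      · exact absurd ⟨i, ha⟩ h
      · have := h1 (Sum.inr (Sum.inr i)) b
        simp only at ha
        rw [ha] at this
        exact this.elim
  have hinr : ∀ (b : Fin N) (s : Fin N), (∃ c, ψ (Sum.inl c) b = Sum.inr s) ↔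
      ¬ ∃ i : Fin (N - k), ψ (Sum.inr (Sum.inr i)) b = Sum.inr s := by
    intro b s
    constructor
    · rintro ⟨c, hc⟩ ⟨i, hi⟩
      have := (h3 b).1 (hc.trans hi.symm)
      cases this
    · intro h
      obtain ⟨a, ha⟩ := (h3 b).2 (Sum.inr s)
      rcases a with c | i | i
      · exact ⟨c, ha⟩
      · have := h1 (Sum.inr (Sum.inl i)) b
        simp only at ha
        rw [ha] at this
        exact this.elim
      · exact absurd ⟨i, ha⟩ h
  constructor
  · intro r c s; exact ht r c s
  · rintro (r | b)
    · exact trow r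
    · intro c c' e
      exact Sum.inl_injective ((h3 b).1 e)
  · intro c x y e
    rcases x with r | b <;> rcases y with r' | b'
    · rw [tcol c e]
    · exact absurd ⟨r, e⟩ (h1 (Sum.inl c) b')
    · exact absurd ⟨r', e.symm⟩ (h1 (Sum.inl c) b)
    · rw [h2 _ e]
  · exact treg
  · constructor
    · intro b
      simp only [Sum.elim_inr, hinl]
      apply cnt_not _ (Fintype.card_fin N)
      rw [← cnt_pbij (fun (i : Fin k) s => ψ (Sum.inr (Sum.inl i)) b = Sum.inl s)
        (fun a b b' e e' => Sum.inl_injective (e.symm.trans e'))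
        (fun a a' b e e' => by
          have := (h3 _).1 (e.trans e'.symm)
          simpa using this)]
      rw [cnt_true, Fintype.card_fin]
      intro i
      rcases h : ψ (Sum.inr (Sum.inl i)) b with s | s
      · exact ⟨s, rfl⟩
      · have := h1 (Sum.inr (Sum.inl i)) b
        rw [h] at this
        exact this.elim
    · intro s
      simp only [Sum.elim_inr]
      rw [cnt_pbij (fun b c => ψ (Sum.inl c) b = Sum.inl s)
        (fun a b b' e e' => Sum.inl_injective ((h3 _).1 (e.trans e'.symm)))
        (fun a a' b e e' => h2 _ (e.trans e'.symm))]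
      refine Eq.trans (cnt_congr ?_) (cnt_not _ (Fintype.card_fin N) (hP.cs.2 s))
      intro c
      constructor
      · rintro ⟨b, hb⟩ ⟨r, hr⟩
        have := h1 (Sum.inl c) b
        rw [hb] at this
        exact this ⟨r, (ht _ _ _).2 hr⟩
      · intro h
        exact hG2.exists_colour h1 h2 (a := Sum.inl c) (b := Sum.inl s)
          (fun ⟨r, hr⟩ => h ⟨r, (ht _ _ _).1 hr⟩)
  · constructor
    · intro b
      simp only [Sum.elim_inr, hinr]
      have e1 : cnt (fun s => ∃ i : Fin (N - k), ψ (Sum.inr (Sum.inr i)) b = Sum.inr s)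
          = N - k := by
        rw [← cnt_pbij (fun (i : Fin (N - k)) s => ψ (Sum.inr (Sum.inr i)) b = Sum.inr s)
          (fun a b b' e e' => Sum.inr_injective (e.symm.trans e'))
          (fun a a' b e e' => by
            have := (h3 _).1 (e.trans e'.symm)
            simpa using this)]
        rw [cnt_true, Fintype.card_fin]
        intro i
        rcases h : ψ (Sum.inr (Sum.inr i)) b with s | s
        · have := h1 (Sum.inr (Sum.inr i)) b
          rw [h] at this
          exact this.elim
        · exact ⟨s, rfl⟩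
      rw [cnt_not _ (Fintype.card_fin N) e1]
      omega
    · intro s
      simp only [Sum.elim_inr]
      rw [cnt_pbij (fun b c => ψ (Sum.inl c) b = Sum.inr s)
        (fun a b b' e e' => Sum.inl_injective ((h3 _).1 (e.trans e'.symm)))
        (fun a a' b e e' => h2 _ (e.trans e'.symm))]
      trans cnt fun c => ¬ ∃ r, top r c = Sum.inr s
      · apply cnt_congr
        intro c
        constructor
        · rintro ⟨b, hb⟩
          have := h1 (Sum.inl c) b
          rw [hb] at this
          exact this
        · intro h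
          exact hG2.exists_colour h1 h2 (a := Sum.inl c) (b := Sum.inr s) h
      · rw [cnt_not _ (Fintype.card_fin N) (tc s)]
        omega

end Pool.Agent.Helper92.Proto
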