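import Mathlib

/-! Regular bipartite relations split into perfect matchings. -/

namespace Pool.Agent.Helper92.Proto

open Finset Classical

universe u v

/-- The number of elements of a finite type with a property. -/
noncomputable def cnt {α : Type u} [Fintype α] (p : α → Prop) : ℕ :=
  (univ.filter p).card

lemma cnt_eq {α : Type u} [Fintype α] (p : α → Prop) [DecidablePred p] :
    cnt p = (univ.filter p).card := by
  unfold cnt
  congr

lemma cnt_congr {α : Type u} [Fintype α] {p q : α → Prop} (h : ∀ a, p a ↔ q a) :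
    cnt p = cnt q := by
  have : p = q := funext fun a => propext (h a)
  rw [this]

lemma cnt_true {α : Type u} [Fintype α] {p : α → Prop} (h : ∀ a, p a) :
    cnt p = Fintype.card α := by
  unfold cnt
  rw [filter_true_of_mem fun a _ => h a, card_univ]

lemma cnt_false {α : Type u} [Fintype α] {p : α → Prop} (h : ∀ a, ¬ p a) :
    cnt p = 0 := by
  unfold cnt
  rw [filter_false_of_mem fun a _ => h a, card_empty]

lemma cnt_not {α : Type u} [Fintype α] (p : α → Prop) {n m : ℕ}
    (hn : Fintype.card α = n) (h : cnt p = m) : cnt (fun a => ¬ p a) = n - m := by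
  have h2 := Finset.card_filter_add_card_filter_not (s := (univ : Finset α)) p
  rw [card_univ, hn, ← cnt_eq, ← cnt_eq, h] at h2
  omega

lemma cnt_sum {α : Type u} {β : Type v} [Fintype α] [Fintype β] (p : α ⊕ β → Prop) :
    cnt p = cnt (fun a => p (Sum.inl a)) + cnt (fun b => p (Sum.inr b)) := by
  unfold cnt
  rw [card_filter, card_filter, card_filter, Fintype.sum_sum_type]

lemma cnt_bij {α : Type u} {β : Type v} [Fintype α] [Fintype β] {p : α → Prop} {q : β → Prop}
    (R : α → β → Prop) (hp : ∀ a, p a → ∃ b, q b ∧ R a b) (hq : ∀ b, q b → ∃ a, p a ∧ R a b)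
    (h1 : ∀ a b b', R a b → R a b' → b = b') (h2 : ∀ a a' b, R a b → R a' b → a = a') :
    cnt p = cnt q := by
  unfold cnt
  refine card_bij (fun a ha => (hp a (mem_filter.1 ha).2).choose) ?_ ?_ ?_
  · intro a ha
    exact mem_filter.2 ⟨mem_univ _, (hp a (mem_filter.1 ha).2).choose_spec.1⟩
  · intro a ha a' ha' e
    have h := (hp a (mem_filter.1 ha).2).choose_spec.2
    have h' := (hp a' (mem_filter.1 ha').2).choose_spec.2
    rw [← e] at h'
    exact h2 _ _ _ h h'
  · intro b hb
    obtain ⟨a, ha, hr⟩ := hq b (mem_filter.1 hb).2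
    exact ⟨a, mem_filter.2 ⟨mem_univ _, ha⟩, h1 _ _ _ (hp a ha).choose_spec.2 hr⟩

/-- A partial bijection has domain and range of the same size. -/
lemma cnt_pbij {α : Type u} {β : Type v} [Fintype α] [Fintype β] (R : α → β → Prop)
    (h1 : ∀ a b b', R a b → R a b' → b = b') (h2 : ∀ a a' b, R a b → R a' b → a = a') :
    cnt (fun a => ∃ b, R a b) = cnt (fun b => ∃ a, R a b) :=
  cnt_bij R (fun a ⟨b, h⟩ => ⟨b, ⟨a, h⟩, h⟩) (fun b ⟨a, h⟩ => ⟨a, ⟨b, h⟩, h⟩) h1 h2

/-- `G` is a `d`-regular bipartite relation. -/
def Reg {α : Type u} {β : Type v} [Fintype α] [Fintype β] (d : ℕ) (G : α → β → Prop) : Prop :=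
  (∀ a, cnt (fun b => G a b) = d) ∧ (∀ b, cnt (fun a => G a b) = d)

variable {α : Type u} {β : Type v} [Fintype α] [Fintype β]

lemma Reg.card_eq {d : ℕ} {G : α → β → Prop} (h : Reg d G) (hd : 0 < d) :
    Fintype.card α = Fintype.card β := by
  have h1 : ∑ a : α, cnt (fun b => G a b) = ∑ b : β, cnt (fun a => G a b) := by
    simp only [cnt, card_filter]
    exact sum_comm
  simp only [h.1, h.2, sum_const, smul_eq_mul, card_univ] at h1
  exact Nat.eq_of_mul_eq_mul_right hd h1

lemma Reg.exists_matching {d : ℕ} {G : α → β → Prop} (h : Reg d G) (hd : 0 < d) :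
    ∃ f : α → β, Function.Bijective f ∧ ∀ a, G a (f a) := by
  have hall : ∀ s : Finset α, s.card ≤ (s.biUnion fun a => univ.filter fun b => G a b).card := by
    intro s
    set t := s.biUnion fun a => univ.filter fun b => G a b with ht
    have h1 : s.card * d ≤ t.card * d := by
      calc s.card * d = ∑ a ∈ s, (univ.filter fun b => G a b).card := by
            simp only [← cnt_eq, h.1, sum_const, smul_eq_mul]
        _ = ∑ a ∈ s, (t.filter fun b => G a b).card := by
            refine sum_congr rfl fun a ha => ?_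
            congr 1
            ext b
            simp only [mem_filter, mem_univ, true_and, ht, mem_biUnion]
            exact ⟨fun hb => ⟨⟨a, ha, hb⟩, hb⟩, fun hb => hb.2⟩
        _ = ∑ b ∈ t, (s.filter fun a => G a b).card := by
            simp only [card_filter]
            exact sum_comm
        _ ≤ ∑ b ∈ t, (univ.filter fun a => G a b).card :=
            sum_le_sum fun b _ => card_le_card (filter_subset_filter _ (subset_univ _))
        _ = t.card * d := by simp only [← cnt_eq, h.2, sum_const, smul_eq_mul]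
    exact Nat.le_of_mul_le_mul_right h1 hd
  obtain ⟨f, hf, hm⟩ := (Finset.all_card_le_biUnion_card_iff_exists_injective _).1 hall
  refine ⟨f, (Fintype.bijective_iff_injective_and_card f).2 ⟨hf, h.card_eq hd⟩, fun a => ?_⟩
  simpa using hm a

lemma cnt_erase {p : α → Prop} {a₀ : α} {d : ℕ} (h : cnt p = d + 1) (h0 : p a₀) {q : α → Prop}
    (hq : ∀ a, q a ↔ p a ∧ a ≠ a₀) : cnt q = d := by
  have : univ.filter q = (univ.filter p).erase a₀ := by
    ext a
    simp only [mem_filter, mem_univ, true_and, mem_erase, hq]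
    tauto
  rw [cnt, this, card_erase_of_mem (by simpa using h0), ← cnt_eq, h]
  rfl

/-- A `d`-regular bipartite relation is a union of `d` perfect matchings. -/
theorem koenig (d : ℕ) : ∀ {G : α → β → Prop}, Reg d G →
    ∃ χ : α → Fin d → β, (∀ a t, G a (χ a t)) ∧ (∀ a, Function.Injective (χ a)) ∧
      (∀ t, Function.Bijective fun a => χ a t) := by
  induction d with
  | zero => intro G _; exact ⟨fun _ t => t.elim0, fun _ t => t.elim0, fun _ t => t.elim0,
      fun t => t.elim0⟩
  | succ d ih =>
    intro G h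
    obtain ⟨f, hf, hG⟩ := h.exists_matching (Nat.succ_pos d)
    have h' : Reg d (fun a b => G a b ∧ f a ≠ b) := by
      constructor
      · intro a
        exact cnt_erase (h.1 a) (hG a) fun b => and_congr_right fun _ => ne_comm
      · intro b
        obtain ⟨a₀, rfl⟩ := hf.2 b
        exact cnt_erase (h.2 (f a₀)) (hG a₀) fun a =>
          and_congr_right fun _ => not_congr hf.1.eq_iff
    obtain ⟨χ, h1, h2, h3⟩ := ih h'
    refine ⟨fun a => Fin.cons (f a) (χ a), ?_, ?_, ?_⟩
    · intro a t
      refine Fin.cases ?_ (fun t => ?_) t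
      · simpa using hG a
      · simpa using (h1 a t).1
    · intro a
      rw [Fin.cons_injective_iff]
      exact ⟨fun ⟨t, ht⟩ => (h1 a t).2 ht.symm, h2 a⟩
    · intro t
      refine Fin.cases ?_ (fun t => ?_) t
      · simpa using hf
      · simpa using h3 t

/-- Every edge is used by a colour. -/
lemma Reg.exists_colour {d : ℕ} {G : α → β → Prop} (h : Reg d G) {χ : α → Fin d → β}
    (h1 : ∀ a t, G a (χ a t)) (h2 : ∀ a, Function.Injective (χ a)) {a : α} {b : β} (hab : G a b) :
    ∃ t, χ a t = b := by
  have : (univ.image (χ a)) = univ.filter fun b => G a b := by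
    apply eq_of_subset_of_card_le
    · intro b hb
      obtain ⟨t, -, rfl⟩ := mem_image.1 hb
      simpa using h1 a t
    · rw [← cnt_eq, h.1, card_image_of_injective _ (h2 a), card_univ, Fintype.card_fin]
  have hb : b ∈ univ.image (χ a) := by rw [this]; simpa using hab
  obtain ⟨t, -, ht⟩ := mem_image.1 hb
  exact ⟨t, ht⟩

lemma Reg.compl {d N : ℕ} {G : Fin N → Fin N → Prop} (h : Reg d G) :
    Reg (N - d) (fun a b => ¬ G a b) :=
  ⟨fun a => cnt_not _ (Fintype.card_fin N) (h.1 a), fun b => cnt_not _ (Fintype.card_fin N) (h.2 b)⟩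

end Pool.Agent.Helper92.Proto
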