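import Pool.Agent.Helper92.Proto.Defs
import Pool.Agent.Helper92.Proto.Designs

/-! Direct sums of at least four protoplexes of equal order are completable. -/

namespace Pool.Agent.Helper92.Proto

open Finset Function

/-- A map with all fibres of size `M` is the first coordinate of a bijection. -/
lemma exists_equiv {I : Type} [Fintype I] {n M : ℕ} (f : Fin n → I)
    (hf : ∀ i, cnt (fun x => f x = i) = M) :
    ∃ e : Fin n ≃ I × Fin M, ∀ x, (e x).1 = f x := by
  classical
  have h : ∀ i, Nonempty ({x : Fin n // f x = i} ≃ Fin M) := by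
    intro i
    apply Fintype.card_eq.1
    rw [Fintype.card_fin, ← hf i, cnt_eq, Fintype.card_subtype]
  let g : ∀ i, {x : Fin n // f x = i} ≃ Fin M := fun i => (h i).some
  refine ⟨(Equiv.sigmaFiberEquiv f).symm.trans
    ((Equiv.sigmaCongrRight g).trans (Equiv.sigmaEquivProd I (Fin M))), fun x => rfl⟩

theorem completable_aligned {I : Type} [Fintype I] (D : Design I) {n k M : ℕ} (hk : k ≤ M)
    (P : Fin n → Fin n → Option (Fin n)) (hP : IsProtoplex n k P) (ρ γ σ : Fin n → I)
    (hρ : ∀ i, cnt (fun x => ρ x = i) = M) (hγ : ∀ i, cnt (fun x => γ x = i) = M)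
    (hσ : ∀ i, cnt (fun x => σ x = i) = M)
    (hal : ∀ r c s, P r c = some s → ρ r = γ c ∧ γ c = σ s) : Completable P := by
  classical
  obtain ⟨a, ha⟩ := exists_equiv ρ hρ
  obtain ⟨b, hb⟩ := exists_equiv γ hγ
  obtain ⟨d, hd⟩ := exists_equiv σ hσ
  let Q : I → Fin M → Fin M → Fin M → Prop := fun i r c s =>
    P (a.symm (i, r)) (b.symm (i, c)) = some (d.symm (i, s))
  have inj3 : ∀ {e : Fin n ≃ I × Fin M} {i : I} {x y : Fin M}, e.symm (i, x) = e.symm (i, y) →
      x = y := by
    intro e i x y h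
    have := e.symm.injective h
    simpa using this
  have fst : ∀ (e : Fin n ≃ I × Fin M) (f : Fin n → I), (∀ x, (e x).1 = f x) →
      ∀ i x, f (e.symm (i, x)) = i := by
    intro e f he i x
    rw [← he, Equiv.apply_symm_apply]
  have back : ∀ (e : Fin n ≃ I × Fin M) (f : Fin n → I), (∀ x, (e x).1 = f x) →
      ∀ x i, f x = i → x = e.symm (i, (e x).2) := by
    intro e f he x i hx
    rw [Equiv.eq_symm_apply]
    ext
    · rw [he, hx]
    · rfl
  have hrow : ∀ i r, cnt (fun c => ∃ s, Q i r c s) = k := by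
    intro i r
    rw [← hP.row (a.symm (i, r)), ← cnt_eq]
    refine cnt_bij (fun c x => x = b.symm (i, c)) ?_ ?_ ?_ ?_
    · rintro c ⟨s, hs⟩
      exact ⟨_, by rw [hs]; simp, rfl⟩
    · intro x hx
      obtain ⟨s, hs⟩ := Option.ne_none_iff_exists'.1 hx
      obtain ⟨h1, h2⟩ := hal _ _ _ hs
      rw [fst a ρ ha] at h1
      have hx' := back b γ hb x i h1.symm
      have hs' := back d σ hd s i (h2.symm.trans h1.symm)
      refine ⟨(b x).2, ⟨(d s).2, ?_⟩, hx'⟩
      simp only [Q]
      rw [← hx', ← hs']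
      exact hs
    · intro c x x' h h'; rw [h, h']
    · intro c c' x h h'; exact inj3 (h.symm.trans h')
  have hcol : ∀ i c, cnt (fun r => ∃ s, Q i r c s) = k := by
    intro i c
    rw [← hP.col (b.symm (i, c)), ← cnt_eq]
    refine cnt_bij (fun r x => x = a.symm (i, r)) ?_ ?_ ?_ ?_
    · rintro r ⟨s, hs⟩
      exact ⟨_, by rw [hs]; simp, rfl⟩
    · intro x hx
      obtain ⟨s, hs⟩ := Option.ne_none_iff_exists'.1 hx
      obtain ⟨h1, h2⟩ := hal _ _ _ hs
      rw [fst b γ hb] at h1 h2
      have hx' := back a ρ ha x i h1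
      have hs' := back d σ hd s i h2.symm
      refine ⟨(a x).2, ⟨(d s).2, ?_⟩, hx'⟩
      simp only [Q]
      rw [← hx', ← hs']
      exact hs
    · intro c x x' h h'; rw [h, h']
    · intro c c' x h h'; exact inj3 (h.symm.trans h')
  have hsym : ∀ i s, cnt (fun r => ∃ c, Q i r c s) = k := by
    intro i s
    rw [← hP.symbol (d.symm (i, s)), ← cnt_eq]
    refine cnt_bij (fun r x => x.1 = a.symm (i, r) ∧ P x.1 x.2 = some (d.symm (i, s))) ?_ ?_ ?_ ?_
    · rintro r ⟨c, hc⟩
      exact ⟨(_, _), hc, rfl, hc⟩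
    · rintro ⟨x, y⟩ hx
      simp only at hx
      obtain ⟨h1, h2⟩ := hal _ _ _ hx
      rw [fst d σ hd] at h2
      have hx' := back a ρ ha x i (h1.trans h2)
      have hy' := back b γ hb y i h2
      refine ⟨(a x).2, ⟨(b y).2, ?_⟩, hx', hx⟩
      simp only [Q]
      rw [← hx', ← hy']
      exact hx
    · rintro r ⟨x, y⟩ ⟨x', y'⟩ ⟨h, g⟩ ⟨h', g'⟩
      simp only at h g h' g'
      subst h h'
      rw [hP.row_inj _ _ _ _ g g']
    · rintro r r' x ⟨h, -⟩ ⟨h', -⟩; exact inj3 (h.symm.trans h')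
  have q1 : ∀ i r c c' s, Q i r c s → Q i r c' s → c = c' := fun i r c c' s h h' =>
    inj3 (hP.row_inj _ _ _ _ h h')
  have q2 : ∀ i r r' c s, Q i r c s → Q i r' c s → r = r' := fun i r r' c s h h' =>
    inj3 (hP.col_inj _ _ _ _ h h')
  have q3 : ∀ i r c s s', Q i r c s → Q i r c s' → s = s' := fun i r c s s' h h' =>
    inj3 (Option.some_injective _ (h.symm.trans h'))
  have hQ : ∀ i, Plex M k (Q i) := by
    intro i
    refine ⟨q1 i, q2 i, q3 i, ⟨hrow i, hcol i⟩, ⟨?_, hsym i⟩, ⟨?_, ?_⟩⟩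
    · intro r
      rw [cnt_pbij (fun s c => Q i r c s) (fun s c c' h h' => q1 _ _ _ _ _ h h')
        (fun s s' c h h' => q3 _ _ _ _ _ h h')]
      exact hrow i r
    · intro c
      rw [cnt_pbij (fun s r => Q i r c s) (fun s r r' h h' => q2 _ _ _ _ _ h h')
        (fun s s' r h h' => q3 _ _ _ _ _ h h')]
      exact hcol i c
    · intro s
      rw [cnt_pbij (fun c r => Q i r c s) (fun c r r' h h' => q2 _ _ _ _ _ h h')
        (fun c c' r h h' => q1 _ _ _ _ _ h h')]
      exact hsym i s
  obtain ⟨L, h1, h2, h3⟩ := D.core hk Q hQ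
  refine ⟨fun r c => d.symm (L (a r) (b c)), ⟨fun r => ?_, fun c => ?_⟩, ?_⟩
  · apply Finite.injective_iff_bijective.1
    intro c c' h
    exact b.injective (h1 _ (d.symm.injective h))
  · apply Finite.injective_iff_bijective.1
    intro r r' h
    exact a.injective (h2 _ (d.symm.injective h))
  · intro r c s hs
    obtain ⟨e1, e2⟩ := hal _ _ _ hs
    have hr := back a ρ ha r _ rfl
    have hc := back b γ hb c (ρ r) e1.symm
    have hs' := back d σ hd s (ρ r) (e1.trans e2).symm
    have hq : Q (ρ r) (a r).2 (b c).2 (d s).2 := by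
      simp only [Q]
      rw [← hr, ← hc, ← hs']
      exact hs
    have := h3 _ _ _ _ hq
    have ea : a r = (ρ r, (a r).2) := by
      rw [← ha r]
    have eb : b c = (ρ r, (b c).2) := by
      rw [e1, ← hb c]
    simp only
    rw [ea, eb, this]
    exact hs'.symm

theorem completable_of_directSum {m N n k : ℕ} (hm : 4 ≤ m) (P : Fin n → Fin n → Option (Fin n))
    (hP : IsProtoplex n k P) (hS : IsDirectSum m N P) : Completable P := by
  classical
  rcases Nat.eq_zero_or_pos n with rfl | hn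
  · exact ⟨fun r => r.elim0, ⟨fun r => r.elim0, fun c => c.elim0⟩, fun r => r.elim0⟩
  obtain ⟨ρ, γ, σ, hρ, hγ, hσ, hal⟩ := hS
  obtain ⟨I, hI, ⟨D⟩, t, ht⟩ := exists_design hm
  obtain ⟨g, hg⟩ : ∃ g : Fin m → I, ∀ i, cnt (fun x => g x = i) = t := by
    let e : Fin m ≃ I × Fin t := Fintype.equivOfCardEq (by simp [ht])
    refine ⟨fun x => (e x).1, fun i => ?_⟩
    refine Eq.trans ?_ ((cnt_true (α := Fin t) (p := fun _ => True) fun _ => trivial).trans
      (Fintype.card_fin t))
    refine cnt_bij (fun x y => x = e.symm (i, y)) ?_ ?_ ?_ ?_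
    · intro x hx
      refine ⟨(e x).2, trivial, ?_⟩
      rw [Equiv.eq_symm_apply]
      ext
      · exact hx
      · rfl
    · intro y _
      refine ⟨_, ?_, rfl⟩
      simp only
      rw [Equiv.apply_symm_apply]
    · intro x y y' h h'
      simpa using e.symm.injective (h.symm.trans h')
    · intro x x' y h h'; rw [h, h']
  have hfib : ∀ f : Fin n → Fin m, (∀ i, (univ.filter fun x => f x = i).card = N) →
      ∀ i, cnt (fun x => g (f x) = i) = t * N := by
    intro f hf i
    rw [cnt_eq]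
    have : (univ.filter fun x => g (f x) = i) =
        (univ.filter fun j => g j = i).biUnion fun j => univ.filter fun x => f x = j := by
      ext x
      simp
    rw [this, card_biUnion]
    · simp only [hf, sum_const, smul_eq_mul]
      rw [← cnt_eq, hg]
    · intro j _ j' _ hj
      simp only [Function.onFun]
      rw [disjoint_left]
      intro x hx hx'
      simp only [mem_filter, mem_univ, true_and] at hx hx'
      exact hj (hx.symm.trans hx')
  have hkM : k ≤ t * N := by
    let r : Fin n := ⟨0, hn⟩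
    rw [← hP.row r, ← hfib γ hγ (g (ρ r)), cnt_eq]
    apply card_le_card
    intro c hc
    simp only [mem_filter, mem_univ, true_and] at hc ⊢
    obtain ⟨s, hs⟩ := Option.ne_none_iff_exists'.1 hc
    rw [(hal _ _ _ hs).1]
  refine completable_aligned D hkM P hP (fun x => g (ρ x)) (fun x => g (γ x)) (fun x => g (σ x))
    (hfib ρ hρ) (hfib γ hγ) (hfib σ hσ) ?_
  intro r c s hs
  obtain ⟨e1, e2⟩ := hal _ _ _ hs
  exact ⟨by rw [e1], by rw [e2]⟩

end Pool.Agent.Helper92.Proto
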